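import Pool.Agent.H977R3.CM.Aut

/-!
# Conjugates of a function with finitely many algebraic values, and its field of values
-/

set_option autoImplicit false

open scoped BigOperators Classical
open Polynomial

noncomputable section

namespace Pool.Agent.K4H11.AM

open Pool.Agent.H977R3.CM (exists_aut)

/-- Conjugate algebraic numbers (copied from Pool/Agent/R915/E3). -/
theorem exists_conj_aut {z w : ℂ} (hz : IsAlgebraic ℚ z) (hw : aeval w (minpoly ℚ z) = 0) :
    ∃ σ : ℂ ≃+* ℂ, σ z = w := by
  set p : ℚ[X] := minpoly ℚ z with hp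
  have hp0 : p ≠ 0 := minpoly.ne_zero hz.isIntegral
  have hspl : (p.map (algebraMap ℚ ℂ)).Splits := IsAlgClosed.splits _
  have hsf : p.IsSplittingField ℚ (IntermediateField.adjoin ℚ (p.rootSet ℂ)) :=
    IntermediateField.adjoin_rootSet_isSplittingField hspl
  let L := IntermediateField.adjoin ℚ (p.rootSet ℂ)
  have _ : Normal ℚ L := Normal.of_isSplittingField p
  have hzL : z ∈ L := by
    apply IntermediateField.subset_adjoin
    rw [Polynomial.mem_rootSet]
    exact ⟨hp0, minpoly.aeval ℚ z⟩
  have hwL : w ∈ L := by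
    apply IntermediateField.subset_adjoin
    rw [Polynomial.mem_rootSet]
    exact ⟨hp0, hw⟩
  have hmp : minpoly ℚ (⟨z, hzL⟩ : L) = minpoly ℚ z :=
    (minpoly.algebraMap_eq (B := L) (B' := ℂ) (FaithfulSMul.algebraMap_injective L ℂ)
      ⟨z, hzL⟩).symm
  obtain ⟨g, hg⟩ := minpoly.exists_algEquiv_of_root (K := ℚ) (L := L) (x := ⟨w, hwL⟩)
    (y := ⟨z, hzL⟩) (Normal.isIntegral inferInstance _).isAlgebraic (by
      rw [hmp]
      apply Subtype.ext
      change L.val (aeval (⟨w, hwL⟩ : L) (minpoly ℚ z)) = 0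
      rw [← Polynomial.aeval_algHom_apply]
      exact hw)
  obtain ⟨σ, hσ⟩ := exists_aut (L.val : L →+* ℂ) (g.symm : L ≃+* L)
  refine ⟨σ, ?_⟩
  have h1 := hσ ⟨z, hzL⟩
  have h2 : g.symm ⟨z, hzL⟩ = ⟨w, hwL⟩ := by rw [← hg, AlgEquiv.symm_apply_apply]
  change σ z = ((g.symm ⟨z, hzL⟩ : L) : ℂ) at h1
  rw [h1, h2]

/-- the numbers on which two automorphisms agree -/
def eqField (σ τ : ℂ ≃+* ℂ) : IntermediateField ℚ ℂ where
  carrier := {x | σ x = τ x}
  mul_mem' := fun {a b} ha hb => by
    change σ (a * b) = τ (a * b)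
    rw [map_mul, map_mul, show σ a = τ a from ha, show σ b = τ b from hb]
  add_mem' := fun {a b} ha hb => by
    change σ (a + b) = τ (a + b)
    rw [map_add, map_add, show σ a = τ a from ha, show σ b = τ b from hb]
  algebraMap_mem' := fun r => by
    change σ (algebraMap ℚ ℂ r) = τ (algebraMap ℚ ℂ r)
    rw [eq_ratCast, map_ratCast, map_ratCast]
  inv_mem' := fun a ha => by
    change σ a⁻¹ = τ a⁻¹
    rw [map_inv₀, map_inv₀, show σ a = τ a from ha]

/-- the conjugates of a function -/
def conjF {T : Type} (χ : T → ℂ) : Set (T → ℂ) := {ψ | ∃ σ : ℂ ≃+* ℂ, ψ = fun t => σ (χ t)}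

/-- The number of conjugates of a function with finitely many values, all of them algebraic, is the
degree of the field generated by its values. -/
theorem card_conjF {T : Type} (χ : T → ℂ) (hfin : (Set.range χ).Finite)
    (halg : ∀ t, IsAlgebraic ℚ (χ t)) :
    (conjF χ).ncard = Module.finrank ℚ (IntermediateField.adjoin ℚ (Set.range χ)) := by
  set K := IntermediateField.adjoin ℚ (Set.range χ) with hK
  have hfd : FiniteDimensional ℚ K := by
    have : Finite (Set.range χ) := hfin
    refine IntermediateField.finiteDimensional_adjoin ?_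
    rintro _ ⟨t, rfl⟩
    exact (halg t).isIntegral
  obtain ⟨α, hα⟩ := Field.exists_primitive_element ℚ K
  set z : ℂ := (α : ℂ) with hz
  have hint : IsIntegral ℚ α := Algebra.IsIntegral.isIntegral α
  have hmp : minpoly ℚ z = minpoly ℚ α :=
    minpoly.algebraMap_eq (B := K) (B' := ℂ) (FaithfulSMul.algebraMap_injective K ℂ) α
  have hzint : IsIntegral ℚ z := by
    have := hint.map K.val
    exact this
  have hdeg : (minpoly ℚ z).natDegree = Module.finrank ℚ K := by
    rw [hmp]
    exact (Field.primitive_element_iff_minpoly_natDegree_eq ℚ α).mp hα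
  -- the field generated by `z`
  have hadj : IntermediateField.adjoin ℚ {z} = K := by
    have h1 : IntermediateField.lift (IntermediateField.adjoin ℚ {α}) = IntermediateField.adjoin ℚ {z} := by
      rw [IntermediateField.lift_adjoin_simple]
    rw [← h1]
    exact (congrArg IntermediateField.lift hα).trans (IntermediateField.lift_top ..)
  have hagree : ∀ σ τ : ℂ ≃+* ℂ, σ z = τ z ↔ (fun t => σ (χ t)) = fun t => τ (χ t) := by
    intro σ τ
    constructor
    · intro h
      have h1 : K ≤ eqField σ τ := by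
        rw [← hadj]
        apply IntermediateField.adjoin_le_iff.mpr
        rintro _ rfl
        exact h
      funext t
      exact h1 (IntermediateField.subset_adjoin _ _ ⟨t, rfl⟩)
    · intro h
      have h1 : K ≤ eqField σ τ := by
        apply IntermediateField.adjoin_le_iff.mpr
        rintro _ ⟨t, rfl⟩
        exact congrFun h t
      exact h1 α.2
  have hroot : ∀ σ : ℂ ≃+* ℂ, σ z ∈ (minpoly ℚ z).rootSet ℂ := by
    intro σ
    rw [Polynomial.mem_rootSet]
    refine ⟨minpoly.ne_zero hzint, ?_⟩
    have h1 : aeval (((σ : ℂ →+* ℂ).toRatAlgHom) z) (minpoly ℚ z) = 0 := by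
      rw [Polynomial.aeval_algHom_apply, minpoly.aeval, map_zero]
    exact h1
  have hcard : ((minpoly ℚ z).rootSet ℂ).ncard = (minpoly ℚ z).natDegree := by
    rw [← Nat.card_coe_set_eq, Nat.card_eq_fintype_card]
    exact Polynomial.card_rootSet_eq_natDegree (minpoly.irreducible hzint).separable
      (IsAlgClosed.splits _)
  rw [← hdeg, ← hcard]
  have hex : ∀ w ∈ (minpoly ℚ z).rootSet ℂ, ∃ σ : ℂ ≃+* ℂ, σ z = w := by
    intro w hw
    rw [Polynomial.mem_rootSet] at hw
    exact exists_conj_aut hzint.isAlgebraic hw.2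
  choose! s hs using hex
  symm
  refine Set.ncard_congr (fun w _ => fun t => s w (χ t)) ?_ ?_ ?_
  · intro w hw
    exact ⟨s w, rfl⟩
  · intro w w' hw hw' h
    have := (hagree (s w) (s w')).mpr h
    rw [hs w hw, hs w' hw'] at this
    exact this
  · rintro _ ⟨σ, rfl⟩
    refine ⟨σ z, hroot σ, ?_⟩
    exact (hagree _ _).mp (hs _ (hroot σ))

end Pool.Agent.K4H11.AM
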