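import Pool.Agent.Q288.MB.Dfm

/-!
# The Brauer correspondent of a block is unique
-/

set_option autoImplicit false
set_option linter.unusedSectionVars false
set_option linter.style.haveILetI false

open scoped BigOperators Classical

noncomputable section

namespace Pool.Agent.K4H11.AM

open Pool.Agent.Q90.WR Pool.Agent.H254R3.IN Pool.Agent.Q259.BW Pool.Agent.Q288.MB

variable {G : Type} [Group G] [Fintype G]

variable {O : ValuationSubring ℂ} {p : ℕ} [hp : Fact p.Prime] {D : Subgroup G}

/-- fusion: elements centralising `D` with centraliser of order prime to `p` modulo `D` which are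
conjugate in `G` are conjugate in `N_G(D)` (after Pool/Agent/H254R3/IN/Compare) -/
theorem fusion (hD : IsPGroup p D) {y z : NN D} (hy : (y : G) ∈ Subgroup.centralizer (D : Set G))
    (hz : (z : G) ∈ Subgroup.centralizer (D : Set G))
    (h : IsConj (y : G) (z : G)) (hk : ¬ p ∣ kk D (y : G)) : IsConj y z := by
  obtain ⟨c, hc⟩ := isConj_iff.mp h
  set Z := Subgroup.centralizer ({(z : G)} : Set G) with hZ
  have hle1 : D ≤ Z := le_centralizer hz
  set D2 : Subgroup G := D.map (MulAut.conj c).toMonoidHom with hD2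
  have hle2 : D2 ≤ Z := by
    intro x hx
    obtain ⟨d, hd, rfl⟩ := Subgroup.mem_map.mp hx
    rw [hZ, Subgroup.mem_centralizer_iff]
    intro w hw
    rw [Set.mem_singleton_iff.mp hw, ← hc]
    have h1 := Subgroup.mem_centralizer_iff.mp hy d hd
    simp only [MulEquiv.toMonoidHom_eq_coe, MonoidHom.coe_coe, MulAut.conj_apply]
    have e1 : c * (y : G) * c⁻¹ * (c * d * c⁻¹) = c * ((y : G) * d) * c⁻¹ := by group
    have e2 : c * d * c⁻¹ * (c * (y : G) * c⁻¹) = c * (d * (y : G)) * c⁻¹ := by group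
    rw [e1, e2, h1]
  have hcardD2 : Nat.card D2 = Nat.card D :=
    (Nat.card_congr (D.equivMapOfInjective _ (MulAut.conj c).injective).toEquiv).symm
  have hkz : Nat.card Z = kk D (y : G) * Nat.card D := by
    rw [kk_congr D h, kk_mul hz]
  have hDpos : 0 < Nat.card D := Nat.card_pos
  have hidx : ∀ E : Subgroup G, E ≤ Z → Nat.card E = Nat.card D →
      (E.subgroupOf Z).index = kk D (y : G) := by
    intro E hE hEc
    have h1 := Subgroup.card_mul_index (E.subgroupOf Z)
    rw [Nat.card_congr (Subgroup.subgroupOfEquivOfLe hE).toEquiv, hEc, hkz, mul_comm] at h1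
    exact Nat.eq_of_mul_eq_mul_right hDpos h1
  have hp1 : IsPGroup p (D.subgroupOf Z) :=
    hD.of_equiv (Subgroup.subgroupOfEquivOfLe hle1).symm
  have hp2 : IsPGroup p (D2.subgroupOf Z) :=
    (hD.map (MulAut.conj c).toMonoidHom).of_equiv (Subgroup.subgroupOfEquivOfLe hle2).symm
  let P1 : Sylow p Z := hp1.toSylow (by rw [hidx D hle1 rfl]; exact hk)
  let P2 : Sylow p Z := hp2.toSylow (by rw [hidx D2 hle2 hcardD2]; exact hk)
  obtain ⟨g, hg⟩ := MulAction.exists_smul_eq Z P2 P1
  have hmem : ∀ x : Z, x ∈ D2.subgroupOf Z ↔ g * x * g⁻¹ ∈ D.subgroupOf Z := by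
    intro x
    have h1 : (g • P2 : Sylow p Z) = P1 := hg
    have h2 : ((g • P2 : Sylow p Z) : Subgroup Z) = D.subgroupOf Z := by
      rw [h1]
      exact IsPGroup.toSylow_coe _ _
    have h3 : ((P2 : Sylow p Z) : Subgroup Z) = D2.subgroupOf Z := IsPGroup.toSylow_coe _ _
    rw [← h2, ← h3, Sylow.coe_subgroup_smul, ← MulAut.conj_apply]
    exact (Subgroup.smul_mem_pointwise_smul_iff (a := MulAut.conj g)).symm
  have hn : (g : G) * c ∈ NN D := by
    rw [Subgroup.mem_normalizer_iff]
    intro d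
    constructor
    · intro hd
      have h1 : c * d * c⁻¹ ∈ D2 := Subgroup.mem_map.mpr ⟨d, hd, rfl⟩
      have h2 := (hmem ⟨c * d * c⁻¹, hle2 h1⟩).mp (by
        rw [Subgroup.mem_subgroupOf]; exact h1)
      rw [Subgroup.mem_subgroupOf] at h2
      have e : (g : G) * c * d * ((g : G) * c)⁻¹ = (g : G) * (c * d * c⁻¹) * (g : G)⁻¹ := by group
      rw [e]
      exact h2
    · intro hd
      have e : (g : G) * c * d * ((g : G) * c)⁻¹ = (g : G) * (c * d * c⁻¹) * (g : G)⁻¹ := by group
      rw [e] at hd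
      have hZ' : c * d * c⁻¹ ∈ Z := by
        have h3 := hle1 hd
        have h4 := Z.mul_mem (Z.mul_mem (Z.inv_mem g.2) h3) g.2
        have e3 : (g : G)⁻¹ * ((g : G) * (c * d * c⁻¹) * (g : G)⁻¹) * (g : G) = c * d * c⁻¹ := by
          group
        rwa [e3] at h4
      have h2 := (hmem ⟨c * d * c⁻¹, hZ'⟩).mpr (by
        rw [Subgroup.mem_subgroupOf]; exact hd)
      rw [Subgroup.mem_subgroupOf] at h2
      obtain ⟨d', hd', he⟩ := Subgroup.mem_map.mp h2
      have : d' = d := (MulAut.conj c).injective he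
      rw [← this]
      exact hd'
  refine isConj_iff.mpr ⟨⟨(g : G) * c, hn⟩, Subtype.ext ?_⟩
  have hgz : (z : G) * (g : G) = (g : G) * z := Subgroup.mem_centralizer_iff.mp g.2 (z : G) rfl
  change (g : G) * c * (y : G) * ((g : G) * c)⁻¹ = z
  have e : (g : G) * c * (y : G) * ((g : G) * c)⁻¹ = (g : G) * (c * y * c⁻¹) * (g : G)⁻¹ := by group
  rw [e, hc, ← hgz]
  group


section

variable (hpO : (p : ℂ) ∈ O.nonunits) (hD : IsPGroup p D) {χ : G → ℂ} {θ : NN D → ℂ}
  (hχ : IsIrr χ) (hθ : IsIrr θ)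
  (hind : ∀ x : G, omega χ x - ∑ᶠ y : {y : NN D // IsConj x (y : G)}, θ y / θ 1 ∈ O.nonunits)

include hpO hD hχ hθ hind

/-- classes of `G` with defect group `D` -/
theorem lam_eq {y : NN D} (hy : (y : G) ∈ Subgroup.centralizer (D : Set G))
    (hk : ¬ p ∣ kk D (y : G)) :
    red O (omega χ (y : G)) = red O (omega θ y) := by
  haveI : (DD D).Normal := Subgroup.normal_in_normalizer
  rw [induced_sum hχ hθ (hind y), Finset.sum_eq_single (ConjClasses.mk y)]
  · rw [hθ.omega_congr (rep_mk y)]
  · intro L hL hne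
    have hL' := (Finset.mem_filter.mp hL).2
    apply lam_zero hpO (pgroup_DD hD) hθ
    intro hcon
    apply hne
    rw [mem_cent_DD] at hcon
    have h1 := fusion hD hy hcon hL' hk
    rw [eq_comm, mk_eq_iff]
    exact h1.symm
  · intro h
    exfalso
    apply h
    refine Finset.mem_filter.mpr ⟨Finset.mem_univ _, ?_⟩
    exact (conj_coe (rep_mk y)).symm

end

/-- the Brauer correspondent is unique -/
theorem brauer_unique (hpO : (p : ℂ) ∈ O.nonunits) {B : Set (G → ℂ)} (hB : IsBlock O B)
    (hD : IsPGroup p D) {b b' : Set (Subgroup.normalizer (D : Set G) → ℂ)}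
    (h : IsBrauerCorrespondent p O D B b) (h' : IsBrauerCorrespondent p O D B b') : b = b' := by
  by_contra hne
  haveI : (DD D).Normal := Subgroup.normal_in_normalizer
  obtain ⟨χ, hχ⟩ := hB.nonempty
  obtain ⟨θ, hθ⟩ := h.1.nonempty
  obtain ⟨θ', hθ'⟩ := h'.1.nonempty
  have iχ := hB.irr χ hχ
  have iθ := h.1.irr θ hθ
  have iθ' := h'.1.irr θ' hθ'
  have hdis := block_disjoint h.1 h'.1 hne
  have hn : θ' ∉ b := fun hc => Set.disjoint_left.mp hdis hc hθ'
  have hcl := blockCoeff_cl h.1.irr
  have hO : ∀ g, blockCoeff b g ∈ O := blockCoeff_mem h.1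
  obtain ⟨m1, e1⟩ := red_Om iθ hcl hO
  obtain ⟨m2, e2⟩ := red_Om iθ' hcl hO
  rw [Om_blockCoeff h.1.irr iθ, if_pos hθ, red_one] at e1
  rw [Om_blockCoeff h.1.irr iθ', if_neg hn, red_zero] at e2
  apply zero_ne_one (α := RF O)
  rw [e1, e2]
  refine Finset.sum_congr rfl fun K _ => ?_
  by_cases hx : rep K ∈ Subgroup.centralizer (DD D : Set (NN D))
  · by_cases ha : blockCoeff b (rep K) ∈ O.nonunits
    · rw [(red_eq_zero_iff (hO _)).mpr ha, zero_mul, zero_mul]
    · -- the class has defect group `D`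
      obtain ⟨x0, ⟨P, hP⟩, hx0, -⟩ := h.2.1
      have hcard : ∀ k : NN D, IsConj x0 k → ∀ Q : Subgroup (NN D), IsPGroup p Q →
          Q ≤ Subgroup.centralizer ({k} : Set (NN D)) → Nat.card Q ∣ Nat.card (DD D) := by
        intro k hk Q hQ hle
        have h1 : Nat.card Q ∣ Nat.card (Subgroup.centralizer ({k} : Set (NN D))) :=
          Subgroup.card_dvd_of_le hle
        rw [← card_centralizer_congr hk] at h1
        obtain ⟨n, hn⟩ := IsPGroup.iff_card.mp hQ
        have h2 : Nat.card (DD D) = Nat.card P := by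
          have h3 := congrArg (fun S : Subgroup (NN D) => Nat.card S) hP
          refine h3.trans ?_
          exact (Nat.card_congr (Subgroup.equivMapOfInjective _ _
            (Subgroup.subtype_injective _)).toEquiv).symm
        rw [h2, hn]
        rw [hn] at h1
        exact P.pow_dvd_card_of_pow_dvd_card h1
      obtain ⟨Q⟩ : Nonempty (Sylow p (Subgroup.centralizer ({rep K} : Set (NN D)))) := inferInstance
      set Q' : Subgroup (NN D) :=
        (Q : Subgroup (Subgroup.centralizer ({rep K} : Set (NN D)))).map (Subgroup.subtype _) with hQ'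
      have hQp : IsPGroup p Q' := Q.isPGroup'.map _
      have hQle : Q' ≤ Subgroup.centralizer ({rep K} : Set (NN D)) := Subgroup.map_subtype_le _
      obtain ⟨k, hk1, hk2⟩ := minmax hpO h.1 hx0 ha hQp hQle
      have hd := hcard k hk1 Q' hQp hk2
      have hcQ : Nat.card Q' = Nat.card Q :=
        (Nat.card_congr (Subgroup.equivMapOfInjective _ _
            (Subgroup.subtype_injective _)).toEquiv).symm
      have hkk : ¬ p ∣ kk (DD D) (rep K) := by
        intro hdv
        have h3 := kk_mul hx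
        obtain ⟨n, hn⟩ := IsPGroup.iff_card.mp (pgroup_DD hD : IsPGroup p (DD D))
        have h4 : p ^ (n + 1) ∣ Nat.card (Subgroup.centralizer ({rep K} : Set (NN D))) := by
          rw [← h3, hn, pow_succ, mul_comm]
          exact mul_dvd_mul_right hdv _
        have h5 := Q.pow_dvd_card_of_pow_dvd_card h4
        have h6 : p ^ (n + 1) ∣ p ^ n := by
          rw [← hn]
          exact (h5.trans (by rw [hcQ])).trans hd
        have h7 := (Nat.pow_dvd_pow_iff_le_right hp.out.one_lt).mp h6
        omega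
      have hx' : ((rep K : NN D) : G) ∈ Subgroup.centralizer (D : Set G) := (mem_cent_DD _).mp hx
      have hkG : ¬ p ∣ kk D ((rep K : NN D) : G) := by
        intro hdv
        apply hkk
        have h8 := kk_modEq hD (rep K) hx'
        exact (Nat.ModEq.dvd_iff h8 (dvd_refl p)).mpr hdv
      rw [← lam_eq hpO hD iχ iθ (h.2.2 χ hχ θ hθ) hx' hkG,
        ← lam_eq hpO hD iχ iθ' (h'.2.2 χ hχ θ' hθ') hx' hkG]
  · rw [lam_zero hpO (pgroup_DD hD) iθ hx, lam_zero hpO (pgroup_DD hD) iθ' hx]

end Pool.Agent.K4H11.AM
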