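import Pool.Agent.Q288.MB.Orb
import Pool.Agent.K4H11.AM.Galois
import Pool.Agent.K4H11.AM.Uniq

/-!
# Parity of the number of characters in a set of characters with an odd number of Galois conjugates
-/

set_option autoImplicit false
set_option linter.unusedSectionVars false

open scoped BigOperators Classical Pointwise

noncomputable section

namespace Pool.Agent.K4H11.AM

open Pool.Agent.Q90.WR Pool.Agent.H254R3.IN Pool.Agent.Q259.BW Pool.Agent.Q288.MB

/-- The values of `χ` generate a field of odd degree over `ℚ`. -/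
def OddDeg {T : Type} (χ : T → ℂ) : Prop :=
  Odd (Module.finrank ℚ (IntermediateField.adjoin ℚ (Set.range χ)))

/-- The members of `A` whose values generate a field of odd degree over `ℚ`. -/
def oddPart {T : Type} (A : Set (T → ℂ)) : Set (T → ℂ) := {χ | χ ∈ A ∧ OddDeg χ}

section grp

variable {Φ : Type} [Group Φ] [Finite Φ] {X : Type} [MulAction Φ X]

theorem two_iff (hc : ∀ a b : Φ, a * b = b * a) (P : Sylow 2 Φ) (x : X) :
    (P : Subgroup Φ) ≤ MulAction.stabilizer Φ x ↔ Odd (MulAction.orbit Φ x).ncard := by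
  rw [← MulAction.index_stabilizer]
  set K := MulAction.stabilizer Φ x with hK
  constructor
  · intro h
    have h1 := Subgroup.index_dvd_of_le h
    rw [← Nat.not_even_iff_odd, even_iff_two_dvd]
    exact fun h2 => P.not_dvd_index (h2.trans h1)
  · intro h a ha
    have hn : K.Normal := ⟨fun n hn g => by
      rw [hc g n, mul_assoc, mul_inv_cancel, mul_one]
      exact hn⟩
    obtain ⟨k, hk⟩ := P.isPGroup' ⟨a, ha⟩
    have h1 : a ^ 2 ^ k = 1 := congrArg Subtype.val hk
    have h2 : (QuotientGroup.mk a : Φ ⧸ K) ^ 2 ^ k = 1 := by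
      rw [← QuotientGroup.mk_pow, h1]
      rfl
    have h3 : (QuotientGroup.mk a : Φ ⧸ K) ^ K.index = 1 := by
      rw [Subgroup.index]
      exact pow_card_eq_one'
    have h4 := (pow_gcd_eq_one (a := (QuotientGroup.mk a : Φ ⧸ K))).mpr ⟨h2, h3⟩
    have h5 : Nat.gcd (2 ^ k) K.index = 1 := Nat.Coprime.pow_left k (Nat.coprime_two_left.mpr h)
    rw [h5, pow_one] at h4
    exact (QuotientGroup.eq_one_iff a).mp h4

/-- a finite set stable under the stabiliser of a point with an odd orbit -/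
theorem modEq_of_odd (hc : ∀ a b : Φ, a * b = b * a) {Y : Type} [MulAction Φ Y] (x : X)
    (hx : Odd (MulAction.orbit Φ x).ncard) (A : Set Y) (hA : A.Finite)
    (hs : ∀ a : Φ, a • x = x → ∀ y ∈ A, a • y ∈ A) :
    Nat.card A ≡ Nat.card {y : Y // y ∈ A ∧ Odd (MulAction.orbit Φ y).ncard} [MOD 2] := by
  have : Fact (Nat.Prime 2) := ⟨Nat.prime_two⟩
  let P : Sylow 2 Φ := default
  have hP := (two_iff hc P x).mpr hx
  have : Finite A := hA
  let act : MulAction P A :=
    { smul := fun a y => ⟨(a : Φ) • (y : Y), hs a (hP a.2) y y.2⟩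
      one_smul := fun y => Subtype.ext (one_smul Φ (y : Y))
      mul_smul := fun a b y => Subtype.ext (mul_smul (a : Φ) (b : Φ) (y : Y)) }
  have h1 := P.isPGroup'.card_modEq_card_fixedPoints A
  refine h1.trans ?_
  have h2 : Nat.card (MulAction.fixedPoints P A) =
      Nat.card {y : Y // y ∈ A ∧ Odd (MulAction.orbit Φ y).ncard} := by
    refine Nat.card_congr
      { toFun := fun y => ⟨y.1.1, y.1.2, (two_iff hc P _).mp fun a ha => ?_⟩
        invFun := fun y => ⟨⟨y.1, y.2.1⟩, fun a => ?_⟩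
        left_inv := fun y => rfl
        right_inv := fun y => rfl }
    · exact congrArg Subtype.val (y.2 ⟨a, ha⟩)
    · exact Subtype.ext ((two_iff hc P _).mpr y.2.2 a.2)
  rw [h2]

end grp

section chars

variable {G : Type} [Group G]

/-- the irreducible characters -/
abbrev II (G : Type) [Group G] : Type := {χ : G → ℂ // IsIrr χ}

@[instance_reducible] def actI (G : Type) [Group G] : MulAction (ℂ ≃+* ℂ) (II G) where
  smul σ χ := ⟨fun g => σ (χ.1 g), irr_gal σ χ.2⟩
  one_smul _ := rfl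
  mul_smul _ _ _ := rfl

theorem comm_irr [Finite G] (σ τ : ℂ ≃+* ℂ) {χ : G → ℂ} (hχ : IsIrr χ) (g : G) :
    σ (τ (χ g)) = τ (σ (χ g)) := by
  have := Fintype.ofFinite G
  obtain ⟨j, -, hj⟩ := exists_pow σ (N := Nat.card G) Nat.card_pos
  obtain ⟨k, -, hk⟩ := exists_pow τ (N := Nat.card G) Nat.card_pos
  have h1 : ∀ g : G, g ^ Nat.card G = 1 := fun g => pow_card_eq_one'
  have e1 : σ (τ (χ g)) = χ ((g ^ j) ^ k) := by
    rw [← hk G χ hχ (g ^ j) (h1 _)]
    exact hj G (fun g => τ (χ g)) (irr_gal τ hχ) g (h1 _)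
  have e2 : τ (σ (χ g)) = χ ((g ^ k) ^ j) := by
    rw [← hj G χ hχ (g ^ k) (h1 _)]
    exact hk G (fun g => σ (χ g)) (irr_gal σ hχ) g (h1 _)
  rw [e1, e2, ← pow_mul, ← pow_mul, mul_comm]

theorem finite_II [Finite G] : Finite (II G) := by
  have := Fintype.ofFinite G
  have h : {χ : G → ℂ | IsIrr χ}.Finite := finite_of_irr fun χ hχ => hχ
  exact h

theorem range_finite [Finite G] (χ : G → ℂ) : (Set.range χ).Finite := Set.finite_range χ

theorem conj_eq_finrank [Finite G] {χ : G → ℂ} (hχ : IsIrr χ) :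
    (conjF χ).ncard = Module.finrank ℚ (IntermediateField.adjoin ℚ (Set.range χ)) := by
  refine card_conjF χ (Set.finite_range χ) fun g => ?_
  have h := hχ.isIntegral g
  exact (h.tower_top : IsIntegral ℚ (χ g)).isAlgebraic

theorem parity [Finite G] {B A : Set (G → ℂ)} (hB : ∀ θ ∈ B, IsIrr θ) (hA : ∀ θ ∈ A, IsIrr θ)
    (hodd : Odd (numConj B)) (hst : ∀ σ : ℂ ≃+* ℂ, gal σ B = B → gal σ A = A) :
    Nat.card A ≡ Nat.card (oddPart A) [MOD 2] := by
  let _ := actI G
  have hfin : Finite (II G) := finite_II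
  let φ : (ℂ ≃+* ℂ) →* Equiv.Perm (II G) := MulAction.toPermHom _ _
  have hφ : ∀ (σ : ℂ ≃+* ℂ) (χ : II G), ((φ σ χ : II G) : G → ℂ) = fun g => σ (χ.1 g) :=
    fun _ _ => rfl
  have hc : ∀ a b : φ.range, a * b = b * a := by
    rintro ⟨_, σ, rfl⟩ ⟨_, τ, rfl⟩
    apply Subtype.ext
    apply Equiv.ext
    intro χ
    apply Subtype.ext
    funext g
    exact comm_irr σ τ χ.2 g
  -- the action on sets
  let S : Set (II G) := {χ | χ.1 ∈ B}
  let T : Set (II G) := {χ | χ.1 ∈ A}
  have himg : ∀ {C : Set (G → ℂ)}, (∀ θ ∈ C, IsIrr θ) →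
      Subtype.val '' {χ : II G | χ.1 ∈ C} = C := by
    intro C hC
    ext χ
    constructor
    · rintro ⟨ψ, h, rfl⟩
      exact h
    · exact fun h => ⟨⟨χ, hC χ h⟩, h, rfl⟩
  have hsm : ∀ (σ : ℂ ≃+* ℂ) (U : Set (II G)),
      Subtype.val '' ((⟨φ σ, σ, rfl⟩ : φ.range) • U) = gal σ (Subtype.val '' U) := by
    intro σ U
    ext χ
    constructor
    · rintro ⟨_, ⟨ψ, h, rfl⟩, rfl⟩
      exact ⟨ψ.1, ⟨ψ, h, rfl⟩, rfl⟩
    · rintro ⟨_, ⟨ψ, h, rfl⟩, rfl⟩
      exact ⟨φ σ ψ, ⟨ψ, h, rfl⟩, rfl⟩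
  have hinj : Function.Injective (fun U : Set (II G) => (Subtype.val '' U : Set (G → ℂ))) :=
    Set.image_injective.mpr Subtype.val_injective
  have horb : (MulAction.orbit φ.range S).ncard = numConj B := by
    have h1 : (fun U : Set (II G) => (Subtype.val '' U : Set (G → ℂ))) ''
        MulAction.orbit φ.range S = conjs B := by
      ext C
      constructor
      · rintro ⟨_, ⟨⟨_, σ, rfl⟩, rfl⟩, rfl⟩
        refine ⟨σ, ?_⟩
        change Subtype.val '' ((⟨φ σ, σ, rfl⟩ : φ.range) • S) = gal σ B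
        rw [hsm, himg hB]
      · rintro ⟨σ, rfl⟩
        refine ⟨(⟨φ σ, σ, rfl⟩ : φ.range) • S, ⟨_, rfl⟩, ?_⟩
        change Subtype.val '' ((⟨φ σ, σ, rfl⟩ : φ.range) • S) = gal σ B
        rw [hsm, himg hB]
    change _ = (conjs B).ncard
    rw [← h1, Set.ncard_image_of_injective _ hinj]
  have hTA : Nat.card T = Nat.card A := by
    have h1 : Nat.card (Subtype.val '' T : Set (G → ℂ)) = Nat.card T :=
      Nat.card_image_of_injective Subtype.val_injective T
    rw [← h1, himg hA]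
  have hst' : ∀ a : φ.range, a • S = S → ∀ y ∈ T, a • y ∈ T := by
    rintro ⟨_, σ, rfl⟩ h y hy
    have h1 := hsm σ S
    rw [h, himg hB] at h1
    have h2 := hst σ h1.symm
    change (fun g => σ (y.1 g)) ∈ A
    rw [← h2]
    exact ⟨y.1, hy, rfl⟩
  have h1 := modEq_of_odd hc (X := Set (II G)) S (by rw [horb]; exact hodd) T (Set.toFinite T) hst'
  rw [hTA] at h1
  refine h1.trans ?_
  have h2 : ∀ χ : II G, (MulAction.orbit φ.range χ).ncard =
      Module.finrank ℚ (IntermediateField.adjoin ℚ (Set.range χ.1)) := by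
    intro χ
    rw [← conj_eq_finrank χ.2]
    have h3 : Subtype.val '' MulAction.orbit φ.range χ = conjF χ.1 := by
      ext ψ
      constructor
      · rintro ⟨_, ⟨⟨_, σ, rfl⟩, rfl⟩, rfl⟩
        exact ⟨σ, rfl⟩
      · rintro ⟨σ, rfl⟩
        exact ⟨(⟨φ σ, σ, rfl⟩ : φ.range) • χ, ⟨_, rfl⟩, rfl⟩
    rw [← h3, Set.ncard_image_of_injective _ Subtype.val_injective]
  have h3 : Nat.card {y : II G // y ∈ T ∧ Odd (MulAction.orbit φ.range y).ncard} =
      Nat.card (oddPart A) := by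
    refine Nat.card_congr
      { toFun := fun y => ⟨y.1.1, y.2.1, ?_⟩
        invFun := fun y => ⟨⟨y.1, hA _ y.2.1⟩, y.2.1, ?_⟩
        left_inv := fun y => rfl
        right_inv := fun y => rfl }
    · have := y.2.2
      rw [h2] at this
      exact this
    · rw [h2]
      exact y.2.2
  rw [h3]

end chars

section dat

variable {p : ℕ} [hp : Fact p.Prime] {O : ValuationSubring ℂ}

theorem gal_b_eq (hpO : (p : ℂ) ∈ O.nonunits) {X : Dat} (hX : X.IsBrauer p O) {σ : ℂ ≃+* ℂ}
    (h : gal σ X.B = X.B) : gal σ X.b = X.b := by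
  have := hX.fin
  have := Fintype.ofFinite X.G
  have h1 := gal_brauer σ hX.block.irr hX.brauer
  rw [h] at h1
  exact brauer_unique hpO hX.block (Pool.Agent.H254R3.IN.defect_pgroup hX.defect) h1 hX.brauer

theorem parity_ht0 {X : Dat} (hX : X.IsBrauer p O)
    (hodd : Odd (numConj X.B)) : Nat.card (X.ht0 p) ≡ Nat.card (oddPart (X.ht0 p)) [MOD 2] := by
  have := hX.fin
  have := Fintype.ofFinite X.G
  refine parity hX.block.irr (ht0_irr hX) hodd fun σ h => ?_
  have h1 := irr0_gal (p := p) σ X.D X.B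
  change gal σ (Irr0 p X.D X.B) = Irr0 p X.D X.B
  rw [← h1, h]

theorem gal_eq_iff (hpO : (p : ℂ) ∈ O.nonunits) {X : Dat} (hX : X.IsBrauer p O)
    (σ τ : ℂ ≃+* ℂ) : gal σ X.b = gal τ X.b ↔ gal σ X.B = gal τ X.B := by
  have := hX.fin
  have := Fintype.ofFinite X.G
  have h1 := gal_brauer σ hX.block.irr hX.brauer
  have h2 := gal_brauer τ hX.block.irr hX.brauer
  constructor
  · intro h
    by_contra hne
    exact ne_of_brauer (gal_block σ hX.block) (gal_block τ hX.block) hne h1 h2 h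
  · intro h
    rw [← h] at h2
    exact brauer_unique hpO (gal_block σ hX.block) (Pool.Agent.H254R3.IN.defect_pgroup hX.defect) h1 h2

theorem numConj_b (hpO : (p : ℂ) ∈ O.nonunits) {X : Dat} (hX : X.IsBrauer p O) :
    numConj X.b = numConj X.B := by
  symm
  refine Set.ncard_congr (fun C hC => gal hC.choose X.b) ?_ ?_ ?_
  · intro C hC
    exact ⟨_, rfl⟩
  · intro C C' hC hC' h
    rw [hC.choose_spec, hC'.choose_spec]
    exact (gal_eq_iff hpO hX _ _).mp h
  · rintro _ ⟨σ, rfl⟩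
    have hC : ∃ τ : ℂ ≃+* ℂ, gal σ X.B = gal τ X.B := ⟨σ, rfl⟩
    exact ⟨gal σ X.B, hC, (gal_eq_iff hpO hX _ _).mpr hC.choose_spec.symm⟩

theorem parity_ht0' (hpO : (p : ℂ) ∈ O.nonunits) {X : Dat} (hX : X.IsBrauer p O)
    (hodd : Odd (numConj X.B)) : Nat.card (X.ht0' p) ≡ Nat.card (oddPart (X.ht0' p)) [MOD 2] := by
  have := hX.fin
  have := Fintype.ofFinite X.G
  have hb : numConj X.b = numConj X.B := numConj_b hpO hX
  refine parity hX.brauer.1.irr (ht0'_irr hX) (by rw [hb]; exact hodd) fun σ h => ?_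
  have h1 := irr0_gal (p := p) σ X.DN X.b
  change gal σ (Irr0 p X.DN X.b) = Irr0 p X.DN X.b
  rw [← h1, h]

end dat

end Pool.Agent.K4H11.AM
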